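import Pool.Agent.H87.EBK.Stmts

set_option autoImplicit false

namespace Pool.EBK

theorem trj (hMPT : MPT) (hHIG : HIG) (hMID : MID) : TRJ := by
  intro a b c β j hab hc hβ hvc hvb
  have key : ∀ m i : ℕ, i + m = j → ∀ c : ℚ, Third a b c → v c - v a = 2 ^ i * (β - 1) + 1 →
      Rich a b := by
    intro m
    induction m with
    | zero =>
      intro i hi c hc hvc
      have hij : i = j := by omega
      subst hij
      have hX : (1 : ℤ) ≤ 2 ^ i * (β - 1) := by
        have h2 : (1 : ℤ) ≤ 2 ^ i := one_le_pow₀ (by norm_num)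
        nlinarith
      generalize (2 : ℤ) ^ i * (β - 1) = X at hvc hvb hX
      obtain ⟨d, hd, hvd⟩ := hMPT a b c hab hc (by omega) (by omega) (by omega)
      exact hHIG a b d hab hd (by omega) hvd
    | succ m ih =>
      intro i hi c hc hvc
      have hX : (1 : ℤ) ≤ 2 ^ i * (β - 1) := by
        have h2 : (1 : ℤ) ≤ 2 ^ i := one_le_pow₀ (by norm_num)
        nlinarith
      have hXj : 2 * (2 ^ i * (β - 1)) ≤ 2 ^ j * (β - 1) := by
        have h2 : (2 : ℤ) ^ (i + 1) ≤ 2 ^ j := pow_le_pow_right₀ (by norm_num) (by omega)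
        have h3 : (2 : ℤ) ^ (i + 1) = 2 * 2 ^ i := by rw [pow_succ]; ring
        rw [h3] at h2
        have h4 : 0 ≤ β - 1 := by omega
        calc 2 * (2 ^ i * (β - 1)) = (2 * 2 ^ i) * (β - 1) := by ring
          _ ≤ 2 ^ j * (β - 1) := mul_le_mul_of_nonneg_right h2 h4
      have hstep : (2 : ℤ) ^ (i + 1) * (β - 1) = 2 * (2 ^ i * (β - 1)) := by
        rw [pow_succ]; ring
      have ih' := ih (i + 1) (by omega)
      rw [hstep] at ih'
      generalize (2 : ℤ) ^ i * (β - 1) = X at hvc hX hXj ih'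
      generalize (2 : ℤ) ^ j * (β - 1) = Y at hvb hXj
      obtain ⟨d, hd, hvd⟩ := hMID a b c hab hc (by omega) (by omega) (by omega)
      exact ih' d hd (by omega)
  exact key j 0 (by omega) c hc (by rw [pow_zero, one_mul]; omega)

end Pool.EBK
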